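import Pool.Agent.W78.EG.Defs
import Pool.Agent.W318.EX.Lmx
import Pool.Agent.W45.GA.Lat

/-! # Project EG: mean values of `b^Ω` times a character, imaginary quadratic case -/

set_option autoImplicit false

open Finset Filter Topology Complex
open ArithmeticFunction (vonMangoldt cardFactors)

namespace Pool.Agent.W584.EG

open Pool.Agent.W78.GA
open Pool.Agent.W78.EG
open Pool.Agent.H304R3.HK (Lg)

variable {t c : ℤ} {f : ℕ} {χ : DirichletCharacter ℂ f}

lemma hD_of (hF : Fd t c f χ) : t ^ 2 < 4 * c := by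
  have h1 := hF.disc
  have h2 := hF.three
  have h3 : (3 : ℤ) ≤ f := by exact_mod_cast h2
  linarith

lemma phi_bdd {M : ℕ} (hM : 1 ≤ M) {φ : Qd t c → ℂ} (H : HCh M φ) :
    ∃ C : ℝ, ∀ z, ‖φ z‖ ≤ C := by
  refine ⟨∑ p ∈ (Finset.Ico (0 : ℤ) M) ×ˢ (Finset.Ico (0 : ℤ) M), ‖φ ⟨p.1, p.2⟩‖, fun z => ?_⟩
  have hM0 : (0 : ℤ) < M := by exact_mod_cast hM
  have h1 : φ z = φ ⟨z.re % M, z.im % M⟩ :=
    H.per _ _ (Int.dvd_self_sub_emod) (Int.dvd_self_sub_emod)
  rw [h1]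
  refine Finset.single_le_sum (f := fun p : ℤ × ℤ => ‖φ ⟨p.1, p.2⟩‖)
    (fun p _ => norm_nonneg _) (a := (z.re % M, z.im % M)) ?_
  rw [mem_product, mem_Ico, mem_Ico]
  exact ⟨⟨Int.emod_nonneg _ hM0.ne', Int.emod_lt_of_pos _ hM0⟩,
    ⟨Int.emod_nonneg _ hM0.ne', Int.emod_lt_of_pos _ hM0⟩⟩

lemma phi_pow {M : ℕ} {φ : Qd t c → ℂ} (H : HCh M φ) (z : Qd t c) (k : ℕ) :
    φ (z ^ k) = φ z ^ k := by
  induction k with
  | zero => rw [pow_zero, pow_zero, H.one]
  | succ k ih => rw [pow_succ, pow_succ, H.mul, ih]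

lemma phi_le {M : ℕ} (hM : 1 ≤ M) {φ : Qd t c → ℂ} (H : HCh M φ) (z : Qd t c) : ‖φ z‖ ≤ 1 := by
  obtain ⟨C, hC⟩ := phi_bdd hM H
  by_contra hc
  push Not at hc
  have h1 : Tendsto (fun k : ℕ => ‖φ z‖ ^ k) atTop atTop := tendsto_pow_atTop_atTop_of_one_lt hc
  obtain ⟨k, hk⟩ := (h1.eventually (eventually_gt_atTop C)).exists
  have h2 := hC (z ^ k)
  rw [phi_pow H, norm_pow] at h2
  linarith

lemma ball_fiber (hD : t ^ 2 < 4 * c) (X : ℝ) {k : ℕ} (hk : k ∈ Icc 1 ⌊X⌋₊) :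
    (ball t c X).filter (fun z => nm z = k) = (ball t c (k : ℝ)).filter (fun z => nm z = k) := by
  rw [mem_Icc] at hk
  have hX : (k : ℝ) ≤ X := (Nat.le_floor_iff' (by omega)).1 hk.2
  ext z
  rw [mem_filter, mem_filter, mem_ball hD, mem_ball hD]
  constructor
  · rintro ⟨⟨h1, h2⟩, h3⟩
    exact ⟨⟨h1, by rw [h3]⟩, h3⟩
  · rintro ⟨⟨h1, h2⟩, h3⟩
    exact ⟨⟨h1, by rw [h3]; exact hX⟩, h3⟩

lemma ball_maps (hD : t ^ 2 < 4 * c) (X : ℝ) : ∀ z ∈ ball t c X, nm z ∈ Icc 1 ⌊X⌋₊ := by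
  intro z hz
  rw [mem_ball hD] at hz
  rw [mem_Icc]
  exact ⟨hz.1, Nat.le_floor hz.2⟩

lemma sum_ball (hD : t ^ 2 < 4 * c) (X : ℝ) (g : Qd t c → ℂ) : ∑ z ∈ ball t c X, g z =
    ∑ k ∈ Icc 1 ⌊X⌋₊, ∑ z ∈ (ball t c (k : ℝ)).filter (fun z => nm z = k), g z := by
  rw [← Finset.sum_fiberwise_of_maps_to (ball_maps hD X) g]
  exact Finset.sum_congr rfl fun k hk => by rw [ball_fiber hD X hk]

/-- number of elements of norm `n`, divided by the number of units -/
noncomputable def rr (t c : ℤ) (n : ℕ) : ℝ :=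
  (((ball t c (n : ℝ)).filter (fun z => nm z = n)).card : ℝ) / (uc t c : ℝ)

lemma uc_pos (hD : t ^ 2 < 4 * c) : 0 < uc t c := by
  unfold uc
  rw [Finset.card_pos]
  refine ⟨1, ?_⟩
  rw [mem_ball hD, nm_one]
  norm_num

lemma aL_le (hD : t ^ 2 < 4 * c) {φ : Qd t c → ℂ} (hb : ∀ z, ‖φ z‖ ≤ 1) (n : ℕ) :
    ‖aL φ n‖ ≤ rr t c n := by
  unfold aL rr
  have hu : (0 : ℝ) < uc t c := by exact_mod_cast uc_pos hD
  rw [norm_div, Complex.norm_natCast]
  refine div_le_div_of_nonneg_right ?_ hu.le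
  refine (norm_sum_le _ _).trans ?_
  refine (Finset.sum_le_sum fun z _ => hb z).trans ?_
  simp

lemma sum_rr (hD : t ^ 2 < 4 * c) (n : ℕ) :
    ∑ k ∈ Icc 1 n, rr t c k = ((ball t c (n : ℝ)).card : ℝ) / (uc t c : ℝ) := by
  have h := Finset.card_eq_sum_card_fiberwise (ball_maps hD (n : ℝ))
  rw [h, Nat.floor_natCast]
  unfold rr
  rw [← Finset.sum_div]
  push_cast
  congr 1
  refine Finset.sum_congr rfl fun k hk => ?_
  rw [ball_fiber hD (n : ℝ) (by rwa [Nat.floor_natCast])]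

lemma ball_card_le (hD : t ^ 2 < 4 * c) : ∃ C : ℝ, 0 < C ∧ ∀ n : ℕ,
    ((ball t c (n : ℝ)).card : ℝ) ≤ C * n := by
  obtain ⟨C, hC, hlat, -⟩ := Pool.Agent.W45.GA.lat (t := t) (c := c) hD
  refine ⟨|kap t c| + C, by positivity, fun n => ?_⟩
  rcases Nat.eq_zero_or_pos n with rfl | hn
  · have : ball t c ((0 : ℕ) : ℝ) = ∅ := by
      rw [Finset.eq_empty_iff_forall_notMem]
      intro z hz
      rw [mem_ball hD] at hz
      have h2 : (nm z : ℝ) ≤ 0 := by simpa using hz.2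
      have h3 : (1 : ℝ) ≤ nm z := by exact_mod_cast hz.1
      linarith
    rw [this]
    simp
  · have hn1 : (1 : ℝ) ≤ n := by exact_mod_cast hn
    have h1 := hlat n 1 0 hn1 le_rfl
    have h2 : (ball t c (n : ℝ)).filter (lat 1 0) = ball t c (n : ℝ) := by
      apply Finset.filter_true_of_mem
      intro z _
      unfold lat
      exact one_dvd _
    rw [h2] at h1
    have h3 := (abs_le.1 h1).2
    have h4 : Real.sqrt n ≤ n := by
      rw [Real.sqrt_le_left (by linarith)]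
      nlinarith
    have h5 : kap t c * n / ((1 : ℕ) : ℝ) ≤ |kap t c| * n := by
      rw [Nat.cast_one, div_one]
      exact mul_le_mul_of_nonneg_right (le_abs_self _) (by linarith)
    have h6 : C * Real.sqrt n ≤ C * n := mul_le_mul_of_nonneg_left h4 hC.le
    linarith

theorem lmx (hF : Fd t c f χ) (h1 : S_PNTC t c) (h2 : Pool.Agent.W251.EX.S_AMV)
    (_hL : S_LCON t c) : S_LMX t c := by
  intro N b hN hbN hb1 M φ hM H ε hε
  have hD := hD_of hF
  have hb : ‖b‖ = 1 := Complex.norm_eq_one_of_pow_eq_one hbN (by omega)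
  obtain ⟨g, δ, hLg, hδ, hlim⟩ := h1 M φ hM H
  have hphi := phi_le hM H
  obtain ⟨C, hC, hball⟩ := ball_card_le hD
  have hu : (1 : ℝ) ≤ uc t c := by exact_mod_cast uc_pos hD
  have hrr : ∀ n : ℕ, ∑ k ∈ Icc 1 n, rr t c k ≤ max C 2 * n := by
    intro n
    rw [sum_rr hD]
    have h3 : ((ball t c (n : ℝ)).card : ℝ) / (uc t c : ℝ) ≤ ((ball t c (n : ℝ)).card : ℝ) :=
      div_le_self (Nat.cast_nonneg _) hu
    have h4 : C * n ≤ max C 2 * n :=
      mul_le_mul_of_nonneg_right (le_max_left _ _) (Nat.cast_nonneg _)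
    linarith [hball n]
  have key : Tendsto (fun x : ℝ => (∑ n ∈ Icc 1 ⌊x⌋₊, b ^ cardFactors n * aL φ n) / (x : ℂ))
      atTop (𝓝 0) := by
    refine h2 (fun n => b ^ cardFactors n * aL φ n)
      (fun n => b ^ cardFactors n * ((vonMangoldt n : ℂ) * g n)) (rr t c) (max C 2)
      (b * (δ : ℂ)) ?_
    refine ⟨?_, ?_, ?_, ?_, Pool.Agent.W318.EX.lim_g hb g hLg.cd δ hlim, ?_⟩
    · intro n
      rw [norm_mul, norm_pow, hb, one_pow, one_mul]
      exact aL_le hD hphi n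
    · exact hrr
    · intro n
      rw [norm_mul, norm_pow, hb, one_pow, one_mul, norm_mul, Complex.norm_real, Real.norm_eq_abs,
        abs_of_nonneg ArithmeticFunction.vonMangoldt_nonneg, mul_comm]
      exact mul_le_mul_of_nonneg_right ((hLg.cd n).trans (le_max_right _ _))
        ArithmeticFunction.vonMangoldt_nonneg
    · intro n hn
      have hn0 : n ≠ 0 := by omega
      rw [mul_assoc, hLg.lg n hn0, Finset.mul_sum]
      refine Finset.sum_congr rfl fun d hd => ?_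
      obtain ⟨hdn, _⟩ := Nat.mem_divisors.1 hd
      obtain ⟨e, rfl⟩ := hdn
      have hd0 : d ≠ 0 := fun h => hn0 (by simp [h])
      have he0 : e ≠ 0 := fun h => hn0 (by simp [h])
      rw [Nat.mul_div_cancel_left e (Nat.pos_of_ne_zero hd0),
        ArithmeticFunction.cardFactors_mul hd0 he0, pow_add]
      ring
    · rcases hδ with h | h
      · rw [h]
        simp
      · rw [h]
        simpa using Pool.Agent.W318.EX.re_lt hb hb1
  have hup : (0 : ℝ) < uc t c := by linarith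
  have e1 := key.eventually (Metric.ball_mem_nhds 0
    (show (0 : ℝ) < ε / uc t c by positivity))
  obtain ⟨X₁, hX₁⟩ := Filter.eventually_atTop.1 e1
  refine ⟨max X₁ 1, fun X hX => ?_⟩
  have hXp : 0 < X := lt_of_lt_of_le one_pos ((le_max_right _ _).trans hX)
  have h3 := hX₁ X ((le_max_left _ _).trans hX)
  rw [dist_zero_right, norm_div, Complex.norm_real, Real.norm_eq_abs, abs_of_pos hXp,
    div_lt_iff₀ hXp] at h3
  rw [sum_ball hD]
  have huc : (uc t c : ℂ) ≠ 0 := by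
    have := (uc_pos hD).ne'
    exact_mod_cast this
  have e3 : ∀ k ∈ Icc 1 ⌊X⌋₊, ∑ z ∈ (ball t c (k : ℝ)).filter (fun z => nm z = k),
      bO b z * φ z = (uc t c : ℂ) * (b ^ cardFactors k * aL φ k) := by
    intro k _
    have : ∑ z ∈ (ball t c (k : ℝ)).filter (fun z => nm z = k), bO b z * φ z =
        b ^ cardFactors k * ∑ z ∈ (ball t c (k : ℝ)).filter (fun z => nm z = k), φ z := by
      rw [Finset.mul_sum]
      refine Finset.sum_congr rfl fun z hz => ?_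
      rw [mem_filter] at hz
      unfold bO
      rw [hz.2]
    rw [this]
    unfold aL
    field_simp
  rw [Finset.sum_congr rfl e3, ← Finset.mul_sum, norm_mul, Complex.norm_natCast]
  have h7 : (uc t c : ℝ) * ‖∑ k ∈ Icc 1 ⌊X⌋₊, b ^ cardFactors k * aL φ k‖ ≤
      (uc t c : ℝ) * (ε / uc t c * X) := mul_le_mul_of_nonneg_left h3.le hup.le
  refine h7.trans (le_of_eq ?_)
  field_simp

end Pool.Agent.W584.EG
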